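import Pool.Agent.Lib_helper51.AVM.KM
import Pool.Agent.Lib_helper51.GL.DM

set_option autoImplicit false

namespace Pool.Agent.AVM

open Finset Filter Topology Pool.Agent.PQ Pool.Agent.GL

theorem dg_one (k : ℕ) (u : Fin (k + 1) → ℕ) (hp : ∀ i, (u i).Prime) (hg : Good k u) :
    (2 : ℤ) ^ (k + 2) ∣ c (∏ i, u i) ∧ ((2 : ℤ) ^ (k + 3) ∣ c (∏ i, u i) ↔ kc (RM k u) ≠ 1) := by
  obtain ⟨hf, hw, hw2, hm⟩ := good_fam k u hp hg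
  obtain ⟨-, -, hK⟩ := km k u hp hg
  obtain ⟨h1, h2, -⟩ := cl (mm k u) (qq k u) hf
  rw [hw2, hm] at h1 h2
  refine ⟨h1, ?_⟩
  have h3 : (2 : ℤ) ^ (k + 3) ∣ c (∏ i, u i) ↔ K (mm k u) (qq k u) ≠ {1} := h2
  rw [h3, Ne, hK]

end Pool.Agent.AVM
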