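import Pool.Agent.Lib_helper51.GL.DefsD
import Pool.Agent.Lib_helper91.PQ.QC

/-!
# Project AVM (MP_05dcdc_nt): the law on average over all `n = p₁ ⋯ p_k q`, definitions
-/

set_option autoImplicit false

namespace Pool.Agent.AVM

open Finset Pool.Agent.PQ Pool.Agent.GL

/-- the tuples of `n` primes with product at most `X` -/
def Tup (n X : ℕ) : Finset (Fin n → ℕ) :=
  (Fintype.piFinset (fun _ : Fin n => prm X)).filter (fun u => ∏ i, u i ≤ X)

/-- `m = p₁ ⋯ p_k` -/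
def mm (k : ℕ) (u : Fin (k + 1) → ℕ) : ℕ := ∏ i : Fin k, u i.castSucc

/-- `(p₁, …, p_k)` -/
def vv (k : ℕ) (u : Fin (k + 1) → ℕ) : Fin k → ℕ := fun i => u i.castSucc

/-- `q` -/
def qq (k : ℕ) (u : Fin (k + 1) → ℕ) : ℕ := u (Fin.last k)

/-- `u = (p₁, …, p_k, q)`: different, `p_i ≡ 1`, `q ≡ 3 mod 4`, the product is `≡ 3 mod 8` -/
def Good (k : ℕ) (u : Fin (k + 1) → ℕ) : Prop :=
  Function.Injective u ∧ (∀ i : Fin k, u i.castSucc % 4 = 1) ∧ qq k u % 4 = 3 ∧ (∏ i, u i) % 8 = 3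

open Classical in
/-- the good tuples of primes with product at most `X` -/
noncomputable def GT (k X : ℕ) : Finset (Fin (k + 1) → ℕ) := (Tup (k + 1) X).filter (Good k)

/-- the size of the set of all tuples: `X (log log X)^k / log X` -/
noncomputable def LL (k X : ℕ) : ℝ := X * Real.log (Real.log X) ^ k / Real.log X

/-- `0` if `(a/p) = 1`, else `1` -/
def bit (a : ℤ) (p : ℕ) : ZMod 2 := if jacobiSym a p = 1 then 0 else 1

/-- the signs `(q/p_i)` -/
def bs (k : ℕ) (u : Fin (k + 1) → ℕ) : Fin k → ZMod 2 := fun i => bit (qq k u) (u i.castSucc)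

/-- the Rédei matrix: `((p_i/p_l))` off the diagonal, `((n/p_l)/p_l)` on the diagonal, `n = p₁ ⋯ p_k q` -/
def RM (k : ℕ) (u : Fin (k + 1) → ℕ) : Matrix (Fin k) (Fin k) (ZMod 2) := fun l i =>
  if l = i then bit (((∏ j ∈ univ.erase l, u j.castSucc) * qq k u : ℕ) : ℤ) (u l.castSucc)
  else bit (u i.castSucc) (u l.castSucc)

/-- the order of the kernel -/
def kc {k : ℕ} (M : Matrix (Fin k) (Fin k) (ZMod 2)) : ℕ :=
  (univ.filter (fun x : Fin k → ZMod 2 => M.mulVec x = 0)).card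

/-- the number of the symmetric `k × k` matrices over `𝔽₂` with a kernel of order `2^r` -/
def NS (k r : ℕ) : ℕ :=
  (univ.filter (fun M : Matrix (Fin k) (Fin k) (ZMod 2) => M.transpose = M ∧ kc M = 2 ^ r)).card

/-- the share of the symmetric `k × k` matrices over `𝔽₂` with a kernel of order `2^r` -/
noncomputable def PS (k r : ℕ) : ℝ := (NS k r : ℝ) / 2 ^ (k * (k + 1) / 2)

open Classical in
/-- a quartic character modulo the primes `p ≡ 1 mod 4` -/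
noncomputable def qc (p : ℕ) : DirichletCharacter ℂ p :=
  if h : ∃ χ : DirichletCharacter ℂ p, p.Prime ∧ p % 4 = 1 ∧ χ ≠ 1 ∧ χ ^ 2 ≠ 1 ∧ χ ^ 3 ≠ 1 ∧ ∀ q : ℕ, ¬ p ∣ q →
      (Pow2 q p ↔ (χ ^ 2) (q : ZMod p) = 1) ∧ (¬ Pow2 q p ↔ (χ ^ 2) (q : ZMod p) = -1) ∧
      (Pow4 q p ↔ χ (q : ZMod p) = 1) ∧
      (Pow2 q p ∧ ¬ Pow4 q p ↔ χ (q : ZMod p) = -1) ∧
      (¬ Pow2 q p → χ (q : ZMod p) + (χ ^ 3) (q : ZMod p) = 0)
  then h.choose else 1

open Classical in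
/-- the `n ≤ X`, `n ≡ 3 mod 8` squarefree, with `k` prime factors `≡ 1 mod 4` and one `≡ 3 mod 4` -/
noncomputable def SS (k X : ℕ) : Finset ℕ :=
  (Icc 1 X).filter (fun n => n % 8 = 3 ∧ Squarefree n ∧ (n.primeFactors.filter (fun p => p % 4 = 1)).card = k ∧
    (n.primeFactors.filter (fun p => p % 4 = 3)).card = 1)

end Pool.Agent.AVM
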