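import Pool.Agent.Lib_helper93.AVM.LM
import Pool.Agent.Lib_helper56.AVM.LE
import Pool.Agent.Lib_helper24.AVM.LW
import Pool.Agent.Lib_helper51.AVM.KM
import Pool.Agent.Lib_helper51.AVM.SGD
import Pool.Agent.Lib_helper21.AVM.CT
import Pool.Agent.Lib_helper60.AVM.DG

set_option autoImplicit false

namespace Pool.Agent.AVM

open Finset Filter Topology Pool.Agent.PQ Pool.Agent.GL

theorem fi_LL_pos (k X : ℕ) (hX : 16 ≤ X) : 0 < LL k X := by
  have h1 : (16 : ℝ) ≤ X := by exact_mod_cast hX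
  have h2 : 1 < Real.log X := by
    have : Real.log 3 ≤ Real.log X := Real.log_le_log (by norm_num) (by linarith)
    have h3 : 1 < Real.log 3 := by
      rw [Real.lt_log_iff_exp_lt (by norm_num)]
      exact lt_trans Real.exp_one_lt_d9 (by norm_num)
    linarith
  have h4 : 0 < Real.log (Real.log X) := Real.log_pos h2
  unfold LL
  positivity

theorem fi_prime {k X : ℕ} {u : Fin (k + 1) → ℕ} (hu : u ∈ GT k X) : (∀ i, (u i).Prime) ∧ Good k u := by
  classical
  unfold GT Tup at hu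
  simp only [mem_filter, Fintype.mem_piFinset, prm] at hu
  exact ⟨fun i => (hu.1.1 i).2, hu.2⟩

open Classical in
/-- the number of the good tuples with a kernel of order `2^r` -/
theorem fi_kc (k r : ℕ) (ε : ℝ) (hε : 0 < ε) : ∀ᶠ X : ℕ in atTop,
    |(((GT k X).filter (fun u => kc (RM k u) = 2 ^ r)).card : ℝ) - PS k r * (GT k X).card| ≤ ε * LL k X := by
  set S := univ.filter (fun M : Matrix (Fin k) (Fin k) (ZMod 2) => M.transpose = M ∧ kc M = 2 ^ r) with hS
  have hδ : 0 < ε / (S.card + 1) := by positivity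
  have h1 : ∀ M₀ ∈ S, ∀ᶠ X : ℕ in atTop,
      |(((GT k X).filter (fun u => RM k u = M₀)).card : ℝ) - ((GT k X).card : ℝ) / 2 ^ (k * (k + 1) / 2)| ≤
        ε / (S.card + 1) * LL k X := by
    intro M₀ hM
    obtain ⟨X₀, h⟩ := lm k M₀ (by simpa [hS] using (mem_filter.1 hM).2.1) _ hδ
    exact eventually_atTop.2 ⟨X₀, h⟩
  have h2 := (Filter.eventually_all_finset S).2 h1
  filter_upwards [h2, eventually_ge_atTop 16] with X hX hX16
  have hL := fi_LL_pos k X hX16
  have h3 : (GT k X).filter (fun u => kc (RM k u) = 2 ^ r) =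
      S.biUnion (fun M₀ => (GT k X).filter (fun u => RM k u = M₀)) := by
    ext u
    simp only [mem_filter, mem_biUnion]
    constructor
    · rintro ⟨hu, hk⟩
      obtain ⟨hp, hg⟩ := fi_prime hu
      exact ⟨RM k u, by simp only [hS, mem_filter, mem_univ, true_and]; exact ⟨(km k u hp hg).1, hk⟩, hu, rfl⟩
    · rintro ⟨M₀, hM, hu, rfl⟩
      simp only [hS, mem_filter, mem_univ, true_and] at hM
      exact ⟨hu, hM.2⟩
  have h4 : (((GT k X).filter (fun u => kc (RM k u) = 2 ^ r)).card : ℝ) =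
      ∑ M₀ ∈ S, (((GT k X).filter (fun u => RM k u = M₀)).card : ℝ) := by
    rw [h3, card_biUnion]
    · push_cast; rfl
    · intro M₀ _ M₁ _ hne
      show Disjoint _ _
      rw [Finset.disjoint_left]
      intro u hu hu'
      exact hne ((mem_filter.1 hu).2.symm.trans (mem_filter.1 hu').2)
  have h5 : PS k r * (GT k X).card = ∑ M₀ ∈ S, ((GT k X).card : ℝ) / 2 ^ (k * (k + 1) / 2) := by
    rw [sum_const, nsmul_eq_mul]
    unfold PS NS
    rw [← hS]
    ring
  rw [h4, h5, ← sum_sub_distrib]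
  calc |∑ M₀ ∈ S, ((((GT k X).filter (fun u => RM k u = M₀)).card : ℝ) - ((GT k X).card : ℝ) / 2 ^ (k * (k + 1) / 2))|
      ≤ ∑ M₀ ∈ S, |(((GT k X).filter (fun u => RM k u = M₀)).card : ℝ) - ((GT k X).card : ℝ) / 2 ^ (k * (k + 1) / 2)| :=
        abs_sum_le_sum_abs _ _
    _ ≤ ∑ M₀ ∈ S, ε / (S.card + 1) * LL k X := sum_le_sum hX
    _ = S.card * (ε / (S.card + 1) * LL k X) := by rw [sum_const, nsmul_eq_mul]
    _ ≤ ε * LL k X := by
        have h6 : (S.card : ℝ) * (ε / (S.card + 1)) ≤ ε := by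
          rw [mul_div_assoc', div_le_iff₀ (by positivity)]
          nlinarith
        calc (S.card : ℝ) * (ε / (S.card + 1) * LL k X) = (S.card : ℝ) * (ε / (S.card + 1)) * LL k X := by ring
          _ ≤ ε * LL k X := mul_le_mul_of_nonneg_right h6 hL.le

open Classical in
theorem fi_SS (k X : ℕ) : (k.factorial : ℝ) * (SS k X).card = (GT k X).card := by
  have h := ct k X (fun _ => True)
  simp only [filter_true] at h
  exact_mod_cast h

open Classical in
/-- a share of tuples gives a share of numbers -/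
theorem fi_share (k r : ℕ) (ε : ℝ) (hε : 0 < ε) : ∀ᶠ X : ℕ in atTop, 0 < (SS k X).card ∧
    |(((GT k X).filter (fun u => kc (RM k u) = 2 ^ r)).card : ℝ) - PS k r * (GT k X).card| ≤
      ε * (GT k X).card := by
  obtain ⟨c₀, hc₀, X₀, h0⟩ := gt_lower k
  filter_upwards [fi_kc k r (ε * c₀) (by positivity), eventually_ge_atTop 16, eventually_ge_atTop X₀]
    with X h1 h2 h3
  have hL := fi_LL_pos k X h2
  have h4 := h0 X h3
  have h5 : 0 < ((GT k X).card : ℝ) := lt_of_lt_of_le (by positivity) h4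
  constructor
  · rw [← fi_SS] at h5
    have h6 : (0 : ℝ) < (SS k X).card := by
      by_contra h
      push Not at h
      have : (k.factorial : ℝ) * (SS k X).card ≤ 0 := mul_nonpos_of_nonneg_of_nonpos (by positivity) h
      linarith
    exact_mod_cast h6
  · refine h1.trans ?_
    nlinarith

open Classical in
theorem fi_one (k : ℕ) :
    Tendsto (fun X : ℕ => (((SS k X).filter (fun n => ¬ (2 : ℤ) ^ (k + 3) ∣ c n)).card : ℝ) / (SS k X).card) atTop
      (𝓝 (PS k 0)) := by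
  rw [Metric.tendsto_atTop]
  intro ε hε
  obtain ⟨N, hN⟩ := eventually_atTop.1 (fi_share k 0 (ε / 2) (by positivity))
  refine ⟨N, fun X hX => ?_⟩
  obtain ⟨h1, h2⟩ := hN X hX
  have hf : (0 : ℝ) < k.factorial := by exact_mod_cast k.factorial_pos
  have hS : (0 : ℝ) < (SS k X).card := by exact_mod_cast h1
  have h3 : k.factorial * ((SS k X).filter (fun n => ¬ (2 : ℤ) ^ (k + 3) ∣ c n)).card =
      ((GT k X).filter (fun u => kc (RM k u) = 2 ^ 0)).card := by
    have h3 : k.factorial * ((SS k X).filter (fun n => ¬ (2 : ℤ) ^ (k + 3) ∣ c n)).card =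
        ((GT k X).filter (fun u => ¬ (2 : ℤ) ^ (k + 3) ∣ c (∏ i, u i))).card := by
      convert ct k X (fun n => ¬ (2 : ℤ) ^ (k + 3) ∣ c n)
    rw [h3]
    congr 1
    ext u
    simp only [mem_filter]
    refine and_congr_right fun hu => ?_
    obtain ⟨hp, hg⟩ := fi_prime hu
    rw [(dg_one k u hp hg).2, not_not, pow_zero]
  have h3' : (k.factorial : ℝ) * ((SS k X).filter (fun n => ¬ (2 : ℤ) ^ (k + 3) ∣ c n)).card =
      (((GT k X).filter (fun u => kc (RM k u) = 2 ^ 0)).card : ℝ) := by exact_mod_cast h3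
  rw [← h3', ← fi_SS] at h2
  rw [Real.dist_eq]
  have h5 : |(((SS k X).filter (fun n => ¬ (2 : ℤ) ^ (k + 3) ∣ c n)).card : ℝ) / (SS k X).card - PS k 0| ≤ ε / 2 := by
    have h6 : (((SS k X).filter (fun n => ¬ (2 : ℤ) ^ (k + 3) ∣ c n)).card : ℝ) / (SS k X).card - PS k 0 =
        ((k.factorial : ℝ) * ((SS k X).filter (fun n => ¬ (2 : ℤ) ^ (k + 3) ∣ c n)).card -
          PS k 0 * (k.factorial * (SS k X).card)) / (k.factorial * (SS k X).card) := by
      field_simp
    rw [h6, abs_div, abs_of_pos (show (0 : ℝ) < k.factorial * (SS k X).card by positivity),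
      div_le_iff₀ (by positivity)]
    exact h2
  linarith

open Classical in
/-- the tuples with a kernel of order 2 and the next digit -/
theorem fi_le (k : ℕ) (ε : ℝ) (hε : 0 < ε) : ∀ᶠ X : ℕ in atTop,
    |(((GT k X).filter (fun u => kc (RM k u) = 2 ∧ (2 : ℤ) ^ (k + 4) ∣ c (∏ i, u i))).card : ℝ) -
      (((GT k X).filter (fun u => kc (RM k u) = 2 ∧ ¬ (2 : ℤ) ^ (k + 4) ∣ c (∏ i, u i))).card : ℝ)| ≤
      ε * LL k X := by
  obtain ⟨g, S, hg, hS, hgS⟩ := sgd k
  obtain ⟨X₀, h⟩ := le k ε hε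
  filter_upwards [eventually_ge_atTop X₀] with X hX
  have h1 := h X hX g S hg hS
  have h2 : ∑ u ∈ GT k X, g (vv k u) (bs k u) *
      ∏ i ∈ S (vv k u) (bs k u), qc (u i.castSucc) (qq k u : ZMod (u i.castSucc)) =
      (((((GT k X).filter (fun u => kc (RM k u) = 2 ∧ (2 : ℤ) ^ (k + 4) ∣ c (∏ i, u i))).card : ℝ) -
      (((GT k X).filter (fun u => kc (RM k u) = 2 ∧ ¬ (2 : ℤ) ^ (k + 4) ∣ c (∏ i, u i))).card : ℝ) : ℝ) : ℂ) := by
    push_cast
    rw [card_filter, card_filter]
    push_cast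
    rw [← sum_sub_distrib]
    refine sum_congr rfl fun u hu => ?_
    obtain ⟨hp, hgd⟩ := fi_prime hu
    rw [← hgS u hp hgd]
    by_cases h3 : kc (RM k u) = 2
    · by_cases h4 : (2 : ℤ) ^ (k + 4) ∣ c (∏ i, u i)
      · simp [h3, h4]
      · simp [h3, h4]
    · simp [h3]
  rw [h2, Complex.norm_real] at h1
  exact h1

open Classical in
theorem fi_two (k : ℕ) (ε : ℝ) (hε : 0 < ε) : ∃ X₀ : ℕ, ∀ X : ℕ, X₀ ≤ X →
    (PS k 1 / 2 - ε) * (SS k X).card ≤
      ((SS k X).filter (fun n => (2 : ℤ) ^ (k + 3) ∣ c n ∧ ¬ (2 : ℤ) ^ (k + 4) ∣ c n)).card ∧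
    (PS k 1 / 2 - ε) * (SS k X).card ≤ ((SS k X).filter (fun n => (2 : ℤ) ^ (k + 4) ∣ c n)).card := by
  obtain ⟨c₀, hc₀, X₀, h0⟩ := gt_lower k
  refine eventually_atTop.1 ?_
  filter_upwards [fi_share k 1 ε hε, fi_le k (ε * c₀) (by positivity), eventually_ge_atTop 16,
    eventually_ge_atTop X₀] with X h1 h2 h3 h4
  obtain ⟨h1, h1'⟩ := h1
  have hf : (0 : ℝ) < k.factorial := by exact_mod_cast k.factorial_pos
  have hL := fi_LL_pos k X h3
  have h5 := h0 X h4
  have ha : k.factorial * ((SS k X).filter (fun n => (2 : ℤ) ^ (k + 3) ∣ c n ∧ ¬ (2 : ℤ) ^ (k + 4) ∣ c n)).card =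
      ((GT k X).filter (fun u => (2 : ℤ) ^ (k + 3) ∣ c (∏ i, u i) ∧ ¬ (2 : ℤ) ^ (k + 4) ∣ c (∏ i, u i))).card := by
    convert ct k X (fun n => (2 : ℤ) ^ (k + 3) ∣ c n ∧ ¬ (2 : ℤ) ^ (k + 4) ∣ c n)
  have hb : k.factorial * ((SS k X).filter (fun n => (2 : ℤ) ^ (k + 4) ∣ c n)).card =
      ((GT k X).filter (fun u => (2 : ℤ) ^ (k + 4) ∣ c (∏ i, u i))).card := by
    convert ct k X (fun n => (2 : ℤ) ^ (k + 4) ∣ c n)
  set a1 := ((GT k X).filter (fun u => kc (RM k u) = 2 ∧ (2 : ℤ) ^ (k + 4) ∣ c (∏ i, u i))).card with ha1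
  set a2 := ((GT k X).filter (fun u => kc (RM k u) = 2 ∧ ¬ (2 : ℤ) ^ (k + 4) ∣ c (∏ i, u i))).card with ha2
  have h6 : ((GT k X).filter (fun u => kc (RM k u) = 2 ^ 1)).card = a1 + a2 := by
    rw [ha1, ha2, ← card_union_of_disjoint]
    · congr 1
      ext u
      simp only [mem_filter, mem_union, pow_one]
      tauto
    · rw [Finset.disjoint_left]
      intro u hu hu'
      exact (mem_filter.1 hu').2.2 (mem_filter.1 hu).2.2
  have h7 : a2 ≤ k.factorial *
      ((SS k X).filter (fun n => (2 : ℤ) ^ (k + 3) ∣ c n ∧ ¬ (2 : ℤ) ^ (k + 4) ∣ c n)).card := by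
    rw [ha]
    apply card_le_card
    intro u hu
    rw [mem_filter] at hu ⊢
    obtain ⟨hp, hg⟩ := fi_prime hu.1
    exact ⟨hu.1, (dg_one k u hp hg).2.2 (by rw [hu.2.1]; norm_num), hu.2.2⟩
  have h8 : a1 ≤ k.factorial * ((SS k X).filter (fun n => (2 : ℤ) ^ (k + 4) ∣ c n)).card := by
    rw [hb]
    apply card_le_card
    intro u hu
    rw [mem_filter] at hu ⊢
    exact ⟨hu.1, hu.2.2⟩
  have h7' : (a2 : ℝ) ≤ (k.factorial : ℝ) *
      ((SS k X).filter (fun n => (2 : ℤ) ^ (k + 3) ∣ c n ∧ ¬ (2 : ℤ) ^ (k + 4) ∣ c n)).card := by exact_mod_cast h7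
  have h8' : (a1 : ℝ) ≤ (k.factorial : ℝ) * ((SS k X).filter (fun n => (2 : ℤ) ^ (k + 4) ∣ c n)).card := by
    exact_mod_cast h8
  rw [h6] at h1'
  push_cast at h1'
  have h9 := fi_SS k X
  rw [abs_le] at h1' h2
  have h10 : ε * c₀ * LL k X ≤ ε * (GT k X).card := by nlinarith
  rw [← h9] at h1' h10
  constructor
  · have h11 : (PS k 1 / 2 - ε) * (k.factorial * (SS k X).card) ≤ a2 := by nlinarith
    have h12 := h11.trans h7'
    have h13 : (k.factorial : ℝ) * ((PS k 1 / 2 - ε) * (SS k X).card) ≤ (k.factorial : ℝ) *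
      ((SS k X).filter (fun n => (2 : ℤ) ^ (k + 3) ∣ c n ∧ ¬ (2 : ℤ) ^ (k + 4) ∣ c n)).card := by
      linarith
    exact le_of_mul_le_mul_left h13 hf
  · have h11 : (PS k 1 / 2 - ε) * (k.factorial * (SS k X).card) ≤ a1 := by nlinarith
    have h12 := h11.trans h8'
    have h13 : (k.factorial : ℝ) * ((PS k 1 / 2 - ε) * (SS k X).card) ≤ (k.factorial : ℝ) *
      ((SS k X).filter (fun n => (2 : ℤ) ^ (k + 4) ∣ c n)).card := by
      linarith
    exact le_of_mul_le_mul_left h13 hf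

theorem ss_pos (k : ℕ) : ∀ᶠ X : ℕ in atTop, 0 < (SS k X).card :=
  (fi_share k 0 1 one_pos).mono fun _ h => h.1

theorem ss_dvd (k X n : ℕ) (hn : n ∈ SS k X) : (2 : ℤ) ^ (k + 2) ∣ c n := by
  classical
  have h := ct k X (fun a => a = n)
  have h1 : 0 < ((SS k X).filter (fun a => a = n)).card := card_pos.2 ⟨n, mem_filter.2 ⟨hn, rfl⟩⟩
  have h2 : 0 < ((GT k X).filter (fun u => ∏ i, u i = n)).card := by
    have h3 : k.factorial * ((SS k X).filter (fun a => a = n)).card =
        ((GT k X).filter (fun u => ∏ i, u i = n)).card := by convert h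
    rw [← h3]
    exact Nat.mul_pos k.factorial_pos h1
  obtain ⟨u, hu⟩ := card_pos.1 h2
  obtain ⟨hu1, hu2⟩ := mem_filter.1 hu
  obtain ⟨hp, hg⟩ := fi_prime hu1
  rw [← hu2]
  exact (dg_one k u hp hg).1

theorem ss_one (n X : ℕ) : n ∈ SS 1 X ↔ n ≤ X ∧ n % 8 = 3 ∧ ∃ p q : ℕ, p.Prime ∧ q.Prime ∧ n = p * q := by
  classical
  unfold SS
  rw [mem_filter, mem_Icc]
  constructor
  · rintro ⟨⟨h1, h2⟩, h3, h4, h5, h6⟩
    obtain ⟨p, hp⟩ := card_eq_one.1 h5
    obtain ⟨q, hq⟩ := card_eq_one.1 h6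
    have hp1 : p ∈ n.primeFactors.filter (fun p => p % 4 = 1) := by rw [hp]; exact mem_singleton_self _
    have hq1 : q ∈ n.primeFactors.filter (fun p => p % 4 = 3) := by rw [hq]; exact mem_singleton_self _
    rw [mem_filter] at hp1 hq1
    have hpq : p ≠ q := by rintro rfl; omega
    have h7 : n.primeFactors = {p, q} := by
      ext r
      rw [mem_insert, mem_singleton]
      constructor
      · intro hr
        have hr2 : r % 2 = 1 := by
          rcases (Nat.prime_of_mem_primeFactors hr).eq_two_or_odd with h8 | h8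
          · have := Nat.dvd_of_mem_primeFactors hr
            rw [h8] at this
            omega
          · exact h8
        rcases (show r % 4 = 1 ∨ r % 4 = 3 by omega) with h8 | h8
        · left
          have : r ∈ n.primeFactors.filter (fun p => p % 4 = 1) := mem_filter.2 ⟨hr, h8⟩
          rw [hp] at this
          exact mem_singleton.1 this
        · right
          have : r ∈ n.primeFactors.filter (fun p => p % 4 = 3) := mem_filter.2 ⟨hr, h8⟩
          rw [hq] at this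
          exact mem_singleton.1 this
      · rintro (rfl | rfl)
        · exact hp1.1
        · exact hq1.1
    refine ⟨h2, h3, p, q, Nat.prime_of_mem_primeFactors hp1.1, Nat.prime_of_mem_primeFactors hq1.1, ?_⟩
    have h8 := Nat.prod_primeFactors_of_squarefree h4
    rw [h7, prod_pair hpq] at h8
    exact h8.symm
  · rintro ⟨h1, h2, p, q, hp, hq, rfl⟩
    have hpq : p ≠ q := by
      rintro rfl
      have h3 : (p % 8) * (p % 8) % 8 = 3 := by rw [← Nat.mul_mod]; exact h2
      have h4 : p % 8 < 8 := Nat.mod_lt _ (by norm_num)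
      interval_cases p % 8 <;> omega
    have hcop : Nat.Coprime p q := (Nat.coprime_primes hp hq).2 hpq
    have hpf : (p * q).primeFactors = {p, q} := by
      rw [hcop.primeFactors_mul, hp.primeFactors, hq.primeFactors]
      rfl
    have hmod : (p % 4 = 1 ∧ q % 4 = 3) ∨ (p % 4 = 3 ∧ q % 4 = 1) := by
      have h3 : (p % 4) * (q % 4) % 4 = 3 := by rw [← Nat.mul_mod]; omega
      have h4 : p % 4 < 4 := Nat.mod_lt _ (by norm_num)
      have h5 : q % 4 < 4 := Nat.mod_lt _ (by norm_num)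
      interval_cases p % 4 <;> interval_cases q % 4 <;> simp_all
    have hsq : Squarefree (p * q) :=
      (Nat.squarefree_mul hcop).2 ⟨hp.prime.squarefree, hq.prime.squarefree⟩
    have hpos : 1 ≤ p * q := Nat.mul_pos hp.pos hq.pos
    refine ⟨⟨hpos, h1⟩, h2, hsq, ?_, ?_⟩
    · rw [hpf]
      rcases hmod with ⟨h3, h4⟩ | ⟨h3, h4⟩
      · rw [filter_insert, filter_singleton, if_pos h3, if_neg (by omega)]
        rfl
      · rw [filter_insert, filter_singleton, if_neg (by omega), if_pos h4]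
        rfl
    · rw [hpf]
      rcases hmod with ⟨h3, h4⟩ | ⟨h3, h4⟩
      · rw [filter_insert, filter_singleton, if_neg (by omega), if_pos h4]
        rfl
      · rw [filter_insert, filter_singleton, if_pos h3, if_neg (by omega)]
        rfl

end Pool.Agent.AVM
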